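import Mathlib
import Pool.Agent.Helper50.Bergman3

/-! Horowitz products with super-lacunary exponents, general parameters. -/

set_option autoImplicit false

namespace Pool.Agent.Helper50.BG

open Complex MeasureTheory Metric Set Filter Topology Real
open scoped ENNReal

/-- `A a k = ∏_{j ≤ k} a j` -/
noncomputable def A (a : ℕ → ℝ) (k : ℕ) : ℝ := ∏ j ∈ Finset.range (k + 1), a j

/-- the coefficients `a` and exponents `n` of the product `∏ (1 + a k z ^ (n k))` -/
structure Good (a : ℕ → ℝ) (n : ℕ → ℕ) : Prop where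
  a_ge : ∀ k, (2 : ℝ) ^ (k + 1) ≤ a k
  n_zero : 2 ≤ n 0
  n_step : ∀ k, 2 * n k ≤ n (k + 1)
  A_le : ∃ N : ℕ, ∀ k, A a k ≤ (n k : ℝ) ^ N

namespace Good

variable {a : ℕ → ℝ} {n : ℕ → ℕ}

theorem a_pos (h : Good a n) (k : ℕ) : 0 < a k := lt_of_lt_of_le (by positivity) (h.a_ge k)

theorem two_le_a (h : Good a n) (k : ℕ) : 2 ≤ a k := by
  refine le_trans ?_ (h.a_ge k)
  calc (2 : ℝ) = 2 ^ 1 := by norm_num
    _ ≤ 2 ^ (k + 1) := pow_le_pow_right₀ (by norm_num) (by omega)

theorem A_pos (h : Good a n) (k : ℕ) : 0 < A a k := Finset.prod_pos fun j _ => h.a_pos j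

theorem A_succ (a : ℕ → ℝ) (k : ℕ) : A a (k + 1) = A a k * a (k + 1) := by
  unfold A; rw [Finset.prod_range_succ]

theorem two_mul_A_le (h : Good a n) (k : ℕ) : 2 * A a k ≤ A a (k + 1) := by
  rw [A_succ]
  have h1 := h.A_pos k
  have h2 := h.two_le_a (k + 1)
  nlinarith

theorem a_le_A (h : Good a n) (k : ℕ) : a k ≤ A a k := by
  cases k with
  | zero => simp [A]
  | succ k =>
    rw [A_succ]
    have h1 : 1 ≤ A a k := by
      unfold A
      have : ∏ j ∈ Finset.range (k + 1), (1 : ℝ) ≤ ∏ j ∈ Finset.range (k + 1), a j :=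
        Finset.prod_le_prod (fun j _ => zero_le_one) (fun j _ => by
          have := h.two_le_a j
          linarith)
      simpa using this
    have h2 := h.a_pos (k + 1)
    nlinarith

theorem sum_A_le (h : Good a n) (k : ℕ) : ∑ j ∈ Finset.range k, A a j ≤ A a k := by
  cases k with
  | zero => simp; exact (h.A_pos 0).le
  | succ k =>
    refine le_trans ?_ (h.two_mul_A_le k)
    induction k with
    | zero =>
      simp
      have := h.A_pos 0
      linarith
    | succ k ih =>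
      rw [Finset.sum_range_succ]
      have := h.two_mul_A_le k
      linarith

theorem two_le_n (h : Good a n) (k : ℕ) : 2 ≤ n k := by
  induction k with
  | zero => exact h.n_zero
  | succ k ih =>
    have := h.n_step k
    omega

theorem n_pos (h : Good a n) (k : ℕ) : 0 < n k := lt_of_lt_of_le two_pos (h.two_le_n k)

theorem n_strictMono (h : Good a n) : StrictMono n := strictMono_nat_of_lt_succ fun k => by
  have := h.n_step k
  have := h.n_pos k
  omega

theorem sum_n_le (h : Good a n) (k : ℕ) : ∑ j ∈ Finset.range (k + 1), n j ≤ 2 * n k := by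
  induction k with
  | zero => simp; omega
  | succ k ih =>
    rw [Finset.sum_range_succ]
    have := h.n_step k
    omega

theorem prod_one_add_le (h : Good a n) (m : ℕ) :
    ∏ k ∈ Finset.range m, (1 + a k) ≤ 3 * ∏ k ∈ Finset.range m, a k := by
  have h1 : ∀ k : ℕ, (1 + a k) ≤ Real.exp ((1 / 2) ^ (k + 1)) * a k := by
    intro k
    have h2 : (1 / 2 : ℝ) ^ (k + 1) + 1 ≤ Real.exp ((1 / 2) ^ (k + 1)) := Real.add_one_le_exp _
    have h3 := h.a_pos k
    have h4 : 1 ≤ (1 / 2 : ℝ) ^ (k + 1) * a k := by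
      calc (1 : ℝ) = (1 / 2 : ℝ) ^ (k + 1) * 2 ^ (k + 1) := by rw [← mul_pow]; norm_num
        _ ≤ _ := by
          have := h.a_ge k
          gcongr
    nlinarith
  calc ∏ k ∈ Finset.range m, (1 + a k)
      ≤ ∏ k ∈ Finset.range m, (Real.exp ((1 / 2) ^ (k + 1)) * a k) :=
        Finset.prod_le_prod (fun k _ => by have := h.a_pos k; positivity) (fun k _ => h1 k)
    _ = Real.exp (∑ k ∈ Finset.range m, (1 / 2) ^ (k + 1)) * ∏ k ∈ Finset.range m, a k := by
        rw [Finset.prod_mul_distrib, Real.exp_sum]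
    _ ≤ 3 * ∏ k ∈ Finset.range m, a k := by
        have h0 : 0 ≤ ∏ k ∈ Finset.range m, a k :=
          Finset.prod_nonneg fun k _ => (h.a_pos k).le
        refine mul_le_mul_of_nonneg_right ?_ h0
        have h5 : ∑ k ∈ Finset.range m, (1 / 2 : ℝ) ^ (k + 1) ≤ 1 := by
          have : ∀ m : ℕ, ∑ k ∈ Finset.range m, (1 / 2 : ℝ) ^ (k + 1) = 1 - (1 / 2) ^ m := by
            intro m
            induction m with
            | zero => simp
            | succ m ih => rw [Finset.sum_range_succ, ih]; ring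
          rw [this]
          have : (0 : ℝ) < (1 / 2) ^ m := by positivity
          linarith
        calc Real.exp (∑ k ∈ Finset.range m, (1 / 2) ^ (k + 1)) ≤ Real.exp 1 :=
              Real.exp_le_exp.2 h5
          _ ≤ 3 := by have := Real.exp_one_lt_d9; linarith

theorem prod_le_sum (h : Good a n) (r : ℝ) (hr : 0 ≤ r) (hr1 : r ≤ 1) (m : ℕ) :
    ∏ k ∈ Finset.range m, (1 + a k * r ^ (n k)) ≤
      1 + 3 * ∑ k ∈ Finset.range m, A a k * r ^ (n k) := by
  induction m with
  | zero => simp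
  | succ m ih =>
    have e0 : 1 + 3 * (∑ k ∈ Finset.range m, A a k * r ^ (n k) + A a m * r ^ (n m)) =
        (1 + 3 * ∑ k ∈ Finset.range m, A a k * r ^ (n k)) + 3 * (A a m * r ^ (n m)) := by
      ring
    rw [Finset.prod_range_succ, Finset.sum_range_succ, e0, mul_add, mul_one]
    refine add_le_add ih ?_
    have h1 : ∏ k ∈ Finset.range m, (1 + a k * r ^ (n k)) ≤ 3 * ∏ k ∈ Finset.range m, a k := by
      refine le_trans ?_ (h.prod_one_add_le m)
      refine Finset.prod_le_prod (fun k _ => by have := h.a_pos k; positivity) (fun k _ => ?_)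
      have : r ^ (n k) ≤ 1 := pow_le_one₀ hr hr1
      have h3 := h.a_pos k
      nlinarith
    have h2 := h.a_pos m
    have h3 : 0 ≤ a m * r ^ (n m) := by positivity
    calc (∏ k ∈ Finset.range m, (1 + a k * r ^ (n k))) * (a m * r ^ (n m))
        ≤ (3 * ∏ k ∈ Finset.range m, a k) * (a m * r ^ (n m)) :=
          mul_le_mul_of_nonneg_right h1 h3
      _ = _ := by unfold A; rw [Finset.prod_range_succ]; ring

theorem summable_A (h : Good a n) {r : ℝ} (hr : 0 ≤ r) (hr1 : r < 1) :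
    Summable fun k => A a k * r ^ (n k) := by
  obtain ⟨N, hN⟩ := h.A_le
  have h1 : Summable fun m : ℕ => ((m : ℝ) ^ N * r ^ m) :=
    summable_pow_mul_geometric_of_norm_lt_one N (by rwa [Real.norm_of_nonneg hr])
  have h2 : Summable fun k => (((n k : ℕ) : ℝ) ^ N * r ^ (n k)) :=
    h1.comp_injective h.n_strictMono.injective
  refine Summable.of_nonneg_of_le (fun k => ?_) (fun k => ?_) h2
  · have := h.A_pos k
    positivity
  · have := hN k
    gcongr

theorem summable_term (h : Good a n) {r : ℝ} (hr : 0 ≤ r) (hr1 : r < 1) :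
    Summable fun k => a k * r ^ (n k) := by
  refine Summable.of_nonneg_of_le (fun k => ?_) (fun k => ?_) (h.summable_A hr hr1)
  · have := h.a_pos k
    positivity
  · have := h.a_le_A k
    gcongr

end Good

/-- one step of the power inequality -/
theorem rpow_step {q S B x : ℝ} (hq : 0 < q) (hS : 0 ≤ S) (hSB : S ≤ B) (hx : 0 ≤ x) (hx1 : x ≤ 1) :
    (S + B * x) ^ q ≤ S ^ q + 2 ^ q * (B ^ q * x ^ (min 1 q)) := by
  have hB : 0 ≤ B := hS.trans hSB
  rcases le_total 1 q with h1 | h1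
  · rw [min_eq_left h1, Real.rpow_one]
    have m1 : S ∈ Ici (0 : ℝ) := hS
    have m2 : S + B ∈ Ici (0 : ℝ) := by
      simp only [Set.mem_Ici]; linarith
    have m3 : 0 ≤ 1 - x := by linarith
    have hc := (convexOn_rpow h1).2 m1 m2 m3 hx (by ring)
    simp only [smul_eq_mul] at hc
    have e : (1 - x) * S + x * (S + B) = S + B * x := by ring
    rw [e] at hc
    have h2 : (S + B) ^ q ≤ (2 * B) ^ q := Real.rpow_le_rpow (by linarith) (by linarith) hq.le
    rw [Real.mul_rpow (by norm_num) hB] at h2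
    have h3 : 0 ≤ S ^ q := Real.rpow_nonneg hS q
    have h4 : (1 - x) * S ^ q ≤ S ^ q := by nlinarith
    have h5 : x * (S + B) ^ q ≤ x * (2 ^ q * B ^ q) := mul_le_mul_of_nonneg_left h2 hx
    calc (S + B * x) ^ q ≤ _ := hc
      _ ≤ S ^ q + x * (2 ^ q * B ^ q) := add_le_add h4 h5
      _ = _ := by ring
  · rw [min_eq_right h1]
    have h2 := Real.rpow_add_le_add_rpow hS (mul_nonneg hB hx) hq.le h1
    rw [Real.mul_rpow hB hx] at h2
    refine h2.trans ?_
    have h3 : 0 ≤ B ^ q * x ^ q := mul_nonneg (Real.rpow_nonneg hB q) (Real.rpow_nonneg hx q)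
    have h4 : (1 : ℝ) ≤ 2 ^ q := Real.one_le_rpow (by norm_num) hq.le
    nlinarith

theorem add_rpow_le_two {q u v : ℝ} (hq : 0 < q) (hu : 0 ≤ u) (hv : 0 ≤ v) :
    (u + v) ^ q ≤ 2 ^ q * (u ^ q + v ^ q) := by
  have h1 : u + v ≤ 2 * max u v := by
    have := le_max_left u v
    have := le_max_right u v
    linarith
  have hm : 0 ≤ max u v := hu.trans (le_max_left _ _)
  calc (u + v) ^ q ≤ (2 * max u v) ^ q := Real.rpow_le_rpow (by positivity) h1 hq.le
    _ = 2 ^ q * (max u v) ^ q := Real.mul_rpow (by norm_num) hm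
    _ ≤ 2 ^ q * (u ^ q + v ^ q) := by
      have h2 : 0 ≤ u ^ q := Real.rpow_nonneg hu q
      have h3 : 0 ≤ v ^ q := Real.rpow_nonneg hv q
      refine mul_le_mul_of_nonneg_left ?_ (by positivity)
      rcases max_cases u v with ⟨h, _⟩ | ⟨h, _⟩ <;> rw [h] <;> linarith

namespace Good

variable {a : ℕ → ℝ} {n : ℕ → ℕ}

theorem rpow_sum_le (h : Good a n) {q : ℝ} (hq : 0 < q) (r : ℝ) (hr : 0 ≤ r) (hr1 : r ≤ 1)
    (m : ℕ) :
    (∑ k ∈ Finset.range m, A a k * r ^ (n k)) ^ q ≤
      2 ^ q * ∑ k ∈ Finset.range m, A a k ^ q * (r ^ (n k)) ^ (min 1 q) := by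
  induction m with
  | zero => simp [Real.zero_rpow hq.ne']
  | succ m ih =>
    rw [Finset.sum_range_succ, Finset.sum_range_succ, mul_add]
    set S := ∑ k ∈ Finset.range m, A a k * r ^ (n k) with hS
    have hS0 : 0 ≤ S := Finset.sum_nonneg fun k _ => by
      have := h.A_pos k
      positivity
    have hr' : r ^ (n m) ≤ 1 := pow_le_one₀ hr hr1
    have hr0 : 0 ≤ r ^ (n m) := by positivity
    have hSA : S ≤ A a m := by
      refine le_trans ?_ (h.sum_A_le m)
      refine Finset.sum_le_sum fun k _ => ?_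
      have h1 : r ^ (n k) ≤ 1 := pow_le_one₀ hr hr1
      have h2 := h.A_pos k
      nlinarith
    have h1 := rpow_step hq hS0 hSA hr0 hr'
    linarith

end Good

/-! ### The product -/

/-- the `k`-th term -/
noncomputable def term (a : ℕ → ℝ) (n : ℕ → ℕ) (k : ℕ) (z : ℂ) : ℂ := (a k : ℂ) * z ^ (n k)

/-- tail products -/
noncomputable def T (a : ℕ → ℝ) (n : ℕ → ℕ) (K : ℕ) (z : ℂ) : ℂ := ∏' k, (1 + term a n (k + K) z)

namespace Good

variable {a : ℕ → ℝ} {n : ℕ → ℕ}

theorem norm_term (h : Good a n) (k : ℕ) (z : ℂ) : ‖term a n k z‖ = a k * ‖z‖ ^ (n k) := by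
  have := h.a_pos k
  simp [term, abs_of_pos this]

theorem multipliable_T (h : Good a n) (K : ℕ) {z : ℂ} (hz : ‖z‖ < 1) :
    Multipliable fun k => (1 + term a n (k + K) z) := by
  apply multipliable_one_add_of_summable
  have h1 := h.summable_term (norm_nonneg z) hz
  have h2 := (summable_nat_add_iff K).2 h1
  simpa only [h.norm_term] using h2

theorem differentiableOn_T (h : Good a n) (K : ℕ) :
    DifferentiableOn ℂ (T a n K) (ball (0 : ℂ) 1) := by
  intro z hz
  rw [mem_ball_zero_iff] at hz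
  obtain ⟨r, hr1, hr2⟩ := exists_between hz
  have hr0 : 0 ≤ r := (norm_nonneg z).trans hr1.le
  have h1 := (summable_nat_add_iff K).2 (h.summable_term hr0 hr2)
  have h2 : HasProdLocallyUniformlyOn (fun k z => 1 + term a n (k + K) z)
      (fun z => ∏' k, (1 + term a n (k + K) z)) (ball (0 : ℂ) r) := by
    refine Summable.hasProdLocallyUniformlyOn_nat_one_add isOpen_ball h1 ?_ ?_
    · refine Eventually.of_forall fun k x hx => ?_
      rw [h.norm_term]
      rw [mem_ball_zero_iff] at hx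
      have := h.a_pos (k + K)
      gcongr
    · intro k
      unfold term
      fun_prop
  have h3 := h2.tendstoLocallyUniformlyOn_finsetRange
  have h4 : DifferentiableOn ℂ (T a n K) (ball (0 : ℂ) r) := by
    refine h3.differentiableOn (Eventually.of_forall fun m => ?_) isOpen_ball
    unfold term
    fun_prop
  have h5 : DifferentiableAt ℂ (T a n K) z :=
    h4.differentiableAt (isOpen_ball.mem_nhds (by rwa [mem_ball_zero_iff]))
  exact h5.differentiableWithinAt

theorem T_zero (h : Good a n) (K : ℕ) : T a n K 0 = 1 := by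
  unfold T term
  have : ∀ k, (0 : ℂ) ^ (n (k + K)) = 0 := fun k => zero_pow (h.n_pos _).ne'
  simp [this]

theorem T_split (h : Good a n) (K : ℕ) {z : ℂ} (hz : ‖z‖ < 1) :
    T a n 0 z = (∏ k ∈ Finset.range K, (1 + term a n k z)) * T a n K z := by
  have := (h.multipliable_T K hz).prod_mul_tprod_nat_mul'
    (f := fun k => 1 + term a n k z) (k := K)
  unfold T
  rw [this]
  simp

theorem norm_T_rpow_le (h : Good a n) {q : ℝ} (hq : 0 < q) {z : ℂ} (hz : ‖z‖ < 1) :
    ENNReal.ofReal (‖T a n 0 z‖ ^ q) ≤ ENNReal.ofReal (2 ^ q) +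
      ∑' k, ENNReal.ofReal (2 ^ q * 3 ^ q * 2 ^ q * (A a k ^ q * (‖z‖ ^ (n k)) ^ (min 1 q))) := by
  have h1 := (h.multipliable_T 0 hz).hasProd.tendsto_prod_nat.norm
  have h2 : Tendsto (fun m : ℕ => ENNReal.ofReal
      (‖∏ k ∈ Finset.range m, (1 + term a n (k + 0) z)‖ ^ q)) atTop
      (𝓝 (ENNReal.ofReal (‖T a n 0 z‖ ^ q))) := by
    refine (ENNReal.continuous_ofReal.tendsto _).comp ?_
    exact ((Real.continuous_rpow_const hq.le).tendsto _).comp h1
  refine le_of_tendsto h2 (Eventually.of_forall fun m => ?_)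
  have hS0 : 0 ≤ ∑ k ∈ Finset.range m, A a k * ‖z‖ ^ (n k) := Finset.sum_nonneg fun k _ => by
    have := h.A_pos k
    positivity
  have h3 : ‖∏ k ∈ Finset.range m, (1 + term a n (k + 0) z)‖ ≤
      1 + 3 * ∑ k ∈ Finset.range m, A a k * ‖z‖ ^ (n k) := by
    rw [norm_prod]
    refine le_trans ?_ (h.prod_le_sum _ (norm_nonneg _) hz.le m)
    refine Finset.prod_le_prod (fun k _ => norm_nonneg _) (fun k _ => ?_)
    calc ‖1 + term a n (k + 0) z‖ ≤ ‖(1 : ℂ)‖ + ‖term a n k z‖ := norm_add_le _ _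
      _ = _ := by rw [norm_one, h.norm_term]
  have hterm : ∀ k, 0 ≤ 2 ^ q * 3 ^ q * 2 ^ q * (A a k ^ q * (‖z‖ ^ (n k)) ^ (min 1 q)) := by
    intro k
    have := (h.A_pos k).le
    positivity
  have h4 : ‖∏ k ∈ Finset.range m, (1 + term a n (k + 0) z)‖ ^ q ≤ 2 ^ q +
      ∑ k ∈ Finset.range m, 2 ^ q * 3 ^ q * 2 ^ q * (A a k ^ q * (‖z‖ ^ (n k)) ^ (min 1 q)) := by
    calc ‖∏ k ∈ Finset.range m, (1 + term a n (k + 0) z)‖ ^ q ≤
        (1 + 3 * ∑ k ∈ Finset.range m, A a k * ‖z‖ ^ (n k)) ^ q :=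
          Real.rpow_le_rpow (norm_nonneg _) h3 hq.le
      _ ≤ 2 ^ q * (1 ^ q + (3 * ∑ k ∈ Finset.range m, A a k * ‖z‖ ^ (n k)) ^ q) :=
          add_rpow_le_two hq zero_le_one (by positivity)
      _ = 2 ^ q + 2 ^ q * 3 ^ q * (∑ k ∈ Finset.range m, A a k * ‖z‖ ^ (n k)) ^ q := by
          rw [Real.one_rpow, Real.mul_rpow (by norm_num) hS0]; ring
      _ ≤ 2 ^ q + 2 ^ q * 3 ^ q * (2 ^ q *
            ∑ k ∈ Finset.range m, A a k ^ q * (‖z‖ ^ (n k)) ^ (min 1 q)) := by
          have := h.rpow_sum_le hq ‖z‖ (norm_nonneg _) hz.le m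
          gcongr
      _ = _ := by rw [← Finset.mul_sum]; ring
  calc ENNReal.ofReal (‖∏ k ∈ Finset.range m, (1 + term a n (k + 0) z)‖ ^ q)
      ≤ ENNReal.ofReal (2 ^ q +
      ∑ k ∈ Finset.range m, 2 ^ q * 3 ^ q * 2 ^ q * (A a k ^ q * (‖z‖ ^ (n k)) ^ (min 1 q))) :=
        ENNReal.ofReal_le_ofReal h4
    _ = ENNReal.ofReal (2 ^ q) + ∑ k ∈ Finset.range m,
          ENNReal.ofReal (2 ^ q * 3 ^ q * 2 ^ q * (A a k ^ q * (‖z‖ ^ (n k)) ^ (min 1 q))) := by
        rw [ENNReal.ofReal_add (by positivity) (Finset.sum_nonneg fun k _ => hterm k),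
          ENNReal.ofReal_sum_of_nonneg fun k _ => hterm k]
    _ ≤ _ := by
        gcongr
        exact ENNReal.sum_le_tsum _

end Good

end Pool.Agent.Helper50.BG
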