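import Mathlib
import Pool.Agent.Helper50.BG.Prod

/-! Lower bound: no function with the zeros of the product is in the space with the smaller
exponent. -/

set_option autoImplicit false

namespace Pool.Agent.Helper50.BG

open Complex MeasureTheory Metric Set Filter Topology Real
open scoped ENNReal
open Pool.Agent.Helper50.Bergman (log_le_circleAverage norm_reflect circleAverage_eq
  lintegral_ball_polar lintegral_circle_eq)

/-- the reflected product -/
noncomputable def G (a : ℕ → ℝ) (n : ℕ → ℕ) (K : ℕ) (r : ℝ) (z : ℂ) : ℂ :=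
  (∏ k ∈ Finset.range K, (((a k * r ^ (n k) : ℝ) : ℂ) + (z / r) ^ (n k))) * T a n K z

variable {a : ℕ → ℝ} {n : ℕ → ℕ}

theorem analyticOnNhd_T (h : Good a n) (K : ℕ) {r : ℝ} (hr1 : |r| < 1) :
    AnalyticOnNhd ℂ (T a n K) (closedBall 0 |r|) := by
  have h1 : AnalyticOnNhd ℂ (T a n K) (ball 0 1) :=
    (h.differentiableOn_T K).analyticOnNhd isOpen_ball
  exact h1.mono (closedBall_subset_ball hr1)

theorem analyticOnNhd_G (h : Good a n) (K : ℕ) {r : ℝ} (hr1 : |r| < 1) :
    AnalyticOnNhd ℂ (G a n K r) (closedBall 0 |r|) := by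
  unfold G
  refine AnalyticOnNhd.mul ?_ (analyticOnNhd_T h K hr1)
  have : Differentiable ℂ fun z : ℂ =>
      ∏ k ∈ Finset.range K, (((a k * r ^ (n k) : ℝ) : ℂ) + (z / r) ^ (n k)) := by
    fun_prop
  exact fun z _ => this.analyticAt z

theorem G_zero (h : Good a n) (K : ℕ) (r : ℝ) :
    G a n K r 0 = ((∏ k ∈ Finset.range K, (a k * r ^ (n k)) : ℝ) : ℂ) := by
  unfold G
  rw [h.T_zero, mul_one, Complex.ofReal_prod]
  refine Finset.prod_congr rfl fun k _ => ?_
  rw [zero_div, zero_pow (h.n_pos k).ne', add_zero]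

theorem norm_G (h : Good a n) (K : ℕ) {r : ℝ} (hr : 0 < r) (hr1 : r < 1) {z : ℂ} (hz : ‖z‖ = r) :
    ‖G a n K r z‖ = ‖T a n 0 z‖ := by
  rw [h.T_split K (by rw [hz]; exact hr1)]
  unfold G
  rw [norm_mul, norm_mul, norm_prod, norm_prod]
  congr 1
  refine Finset.prod_congr rfl fun k _ => ?_
  have hw : ‖(z / r) ^ (n k)‖ = 1 := by
    rw [norm_pow, norm_div, hz, Complex.norm_real, Real.norm_of_nonneg hr.le, div_self hr.ne',
      one_pow]
  rw [← norm_reflect _ hw]
  congr 2
  unfold term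
  have hrc : (r : ℂ) ≠ 0 := by exact_mod_cast hr.ne'
  push_cast
  rw [div_pow]
  field_simp

/-- lower bound for circle averages of `log |f|` -/
theorem log_le_circleAverage_T (h : Good a n) (K : ℕ) {r : ℝ} (hr : 0 < r) (hr1 : r < 1) :
    Real.log (∏ k ∈ Finset.range K, (a k * r ^ (n k))) ≤
      circleAverage (fun z => Real.log ‖T a n 0 z‖) 0 r := by
  have habs : |r| = r := abs_of_pos hr
  have hpos : 0 < ∏ k ∈ Finset.range K, (a k * r ^ (n k)) :=
    Finset.prod_pos fun k _ => by have := h.a_pos k; positivity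
  have h1 : circleAverage (fun z => Real.log ‖T a n 0 z‖) 0 r =
      circleAverage (fun z => Real.log ‖G a n K r z‖) 0 r := by
    apply circleAverage_congr_sphere
    intro z hz
    rw [mem_sphere_zero_iff_norm, habs] at hz
    simp only
    rw [norm_G h K hr hr1 hz]
  rw [h1]
  have h2 := log_le_circleAverage hr (analyticOnNhd_G h K (by rwa [habs]))
    (by rw [G_zero h]; exact_mod_cast hpos.ne')
  rw [G_zero h, Complex.norm_real, Real.norm_of_nonneg hpos.le] at h2
  exact h2

/-- Jensen inequality on a circle, for a power. -/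
theorem exp_circleAverage_rpow_le {g : ℂ → ℂ} {r p : ℝ} (hp : 0 < p) (hr : 0 < r)
    (hg : AnalyticOnNhd ℂ g (closedBall 0 |r|)) (hg0 : g 0 ≠ 0) :
    Real.exp (p * circleAverage (fun z => Real.log ‖g z‖) 0 r) ≤
      circleAverage (fun z => ‖g z‖ ^ p) 0 r := by
  set c := Real.exp (p * circleAverage (fun z => Real.log ‖g z‖) 0 r) with hc
  have hcpos : 0 < c := Real.exp_pos _
  have hlogc : Real.log c = p * circleAverage (fun z => Real.log ‖g z‖) 0 r := Real.log_exp _
  have hint1 : CircleIntegrable (fun z => Real.log ‖g z‖) 0 r :=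
    (hg.mono sphere_subset_closedBall).meromorphicOn.circleIntegrable_log_norm
  have hint1' : CircleIntegrable (fun z => p * Real.log ‖g z‖) 0 r := hint1.const_mul p
  have hcont : ContinuousOn (fun z => ‖g z‖ ^ p) (sphere (0 : ℂ) |r|) :=
    ((hg.mono sphere_subset_closedBall).continuousOn).norm.rpow_const fun _ _ => Or.inr hp.le
  have hint2 : CircleIntegrable (fun z => ‖g z‖ ^ p) 0 r := hcont.circleIntegrable'
  -- a.e. nonvanishing
  have hne : ∀ᵐ θ ∂(volume.restrict (Icc (0 : ℝ) (2 * π))), g (circleMap 0 r θ) ≠ 0 := by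
    have h1 : g ⁻¹' {0}ᶜ ∈ codiscreteWithin (closedBall (0 : ℂ) |r|) := by
      refine hg.preimage_zero_mem_codiscreteWithin (x := 0) hg0 (by simp) ?_
      exact ⟨⟨0, by simp⟩, (convex_closedBall (0 : ℂ) |r|).isPreconnected⟩
    have h2 : g ⁻¹' {0}ᶜ ∈ codiscreteWithin (sphere (0 : ℂ) |r|) :=
      codiscreteWithin_mono sphere_subset_closedBall h1
    have h3 : circleMap 0 r ⁻¹' (g ⁻¹' {0}ᶜ) ∈ codiscreteWithin (univ : Set ℝ) :=
      circleMap_preimage_codiscrete (c := 0) hr.ne' h2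
    have h3' : circleMap 0 r ⁻¹' (g ⁻¹' {0}ᶜ) ∈ codiscreteWithin (Icc (0 : ℝ) (2 * π)) :=
      codiscreteWithin_mono (subset_univ _) h3
    exact ae_restrict_le_codiscreteWithin (μ := (volume : Measure ℝ)) measurableSet_Icc h3'
  have hkey : circleAverage (fun z => c * (1 + (p * Real.log ‖g z‖ - Real.log c))) 0 r ≤
      circleAverage (fun z => ‖g z‖ ^ p) 0 r := by
    unfold circleAverage
    rw [smul_eq_mul, smul_eq_mul]
    have hpi : 0 < (2 * π)⁻¹ := by positivity
    refine mul_le_mul_of_nonneg_left ?_ hpi.le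
    refine intervalIntegral.integral_mono_ae_restrict (by positivity) ?_ hint2 ?_
    · have h5 : CircleIntegrable (fun z => c * (1 + (p * Real.log ‖g z‖ - Real.log c))) 0 r := by
        have h6 : CircleIntegrable (fun z : ℂ => (1 : ℝ)) 0 r := circleIntegrable_const _ _ _
        have h7 : CircleIntegrable (fun z : ℂ => Real.log c) 0 r := circleIntegrable_const _ _ _
        exact (h6.add (hint1'.sub h7)).const_mul c
      exact h5
    · filter_upwards [hne] with θ hθ
      have hpos : 0 < ‖g (circleMap 0 r θ)‖ := norm_pos_iff.2 hθ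
      have hpos' : 0 < ‖g (circleMap 0 r θ)‖ ^ p := Real.rpow_pos_of_pos hpos p
      have h8 := Real.log_le_sub_one_of_pos (div_pos hpos' hcpos)
      rw [Real.log_div hpos'.ne' hcpos.ne', Real.log_rpow hpos] at h8
      have h9 : c * (1 + (p * Real.log ‖g (circleMap 0 r θ)‖ - Real.log c)) ≤
          c * (‖g (circleMap 0 r θ)‖ ^ p / c) := by
        apply mul_le_mul_of_nonneg_left _ hcpos.le
        linarith
      rwa [mul_div_cancel₀ _ hcpos.ne'] at h9
  have heq : circleAverage (fun z => c * (1 + (p * Real.log ‖g z‖ - Real.log c))) 0 r = c := by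
    have h6 : CircleIntegrable (fun z : ℂ => (1 : ℝ)) 0 r := circleIntegrable_const _ _ _
    have h7 : CircleIntegrable (fun z : ℂ => Real.log c) 0 r := circleIntegrable_const _ _ _
    have e1 : (fun z => c * (1 + (p * Real.log ‖g z‖ - Real.log c))) =
        c • ((fun _ => (1 : ℝ)) + ((p • fun z => Real.log ‖g z‖) - (fun _ => Real.log c))) := by
      ext z; simp
    have hint1'' : CircleIntegrable (p • fun z => Real.log ‖g z‖) 0 r := hint1'
    rw [e1, circleAverage_smul, circleAverage_add h6 (hint1''.sub h7),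
      circleAverage_sub hint1'' h7, circleAverage_const, circleAverage_const, hlogc,
      circleAverage_smul]
    simp
  linarith

/-- the lower bound on one circle -/
theorem circle_low (h : Good a n) {p : ℝ} (hp : 0 < p) (g : ℂ → ℂ)
    (hg : DifferentiableOn ℂ g (ball (0 : ℂ) 1))
    (hord : ∀ z ∈ ball (0 : ℂ) 1, analyticOrderAt g z = analyticOrderAt (T a n 0) z)
    (hg0 : g 0 ≠ 0) (k : ℕ) {r : ℝ} (hr0 : 0 < r) (hr1 : r < 1) :
    (‖g 0‖ * (A a k * r ^ (2 * n k))) ^ p ≤ circleAverage (fun z => ‖g z‖ ^ p) 0 r := by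
  have hga : AnalyticOnNhd ℂ g (ball 0 1) := hg.analyticOnNhd isOpen_ball
  have hTa : AnalyticOnNhd ℂ (T a n 0) (ball 0 1) :=
    (h.differentiableOn_T 0).analyticOnNhd isOpen_ball
  have hT0 : T a n 0 0 ≠ 0 := by rw [h.T_zero]; exact one_ne_zero
  have habs : |r| = r := abs_of_pos hr0
  have hcpos : 0 < ‖g 0‖ := norm_pos_iff.2 hg0
  have hsub : closedBall (0 : ℂ) |r| ⊆ ball 0 1 := closedBall_subset_ball (by rwa [habs])
  have h1 := exp_circleAverage_rpow_le hp hr0 (hga.mono hsub) hg0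
  have h2 := circleAverage_eq hr0 (hTa.mono hsub) (hga.mono hsub) hT0 hg0
    (fun z hz => (hord z (hsub hz)).symm)
  rw [h.T_zero, norm_one, Real.log_one, sub_zero] at h2
  have h3 := log_le_circleAverage_T h (k + 1) hr0 hr1
  have hP : ∏ j ∈ Finset.range (k + 1), (a j * r ^ (n j)) =
      A a k * r ^ (∑ j ∈ Finset.range (k + 1), n j) := by
    unfold A
    rw [Finset.prod_mul_distrib, Finset.prod_pow_eq_pow_sum]
  have hAk : (0 : ℝ) < A a k := h.A_pos k
  have h4 : A a k * r ^ (2 * n k) ≤ ∏ j ∈ Finset.range (k + 1), (a j * r ^ (n j)) := by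
    rw [hP]
    apply mul_le_mul_of_nonneg_left _ hAk.le
    exact pow_le_pow_of_le_one hr0.le hr1.le (h.sum_n_le k)
  have h5 : Real.log (A a k * r ^ (2 * n k)) ≤
      circleAverage (fun z => Real.log ‖T a n 0 z‖) 0 r :=
    (Real.log_le_log (by positivity) h4).trans h3
  refine le_trans ?_ h1
  have h7 : circleAverage (fun z => Real.log ‖g z‖) 0 r =
      Real.log ‖g 0‖ + circleAverage (fun z => Real.log ‖T a n 0 z‖) 0 r := by linarith
  rw [← Real.log_le_iff_le_exp (by positivity), Real.log_rpow (by positivity),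
    Real.log_mul hcpos.ne' (by positivity), h7]
  have := mul_le_mul_of_nonneg_left h5 hp.le
  linarith

/-- radii -/
noncomputable def rho (n : ℕ → ℕ) (k : ℕ) : ℝ := 1 - 1 / (n k : ℝ)

theorem Good.rho_mono (h : Good a n) : Monotone (rho n) := monotone_nat_of_le_succ fun k => by
  unfold rho
  have h1 : (0 : ℝ) < n k := by exact_mod_cast h.n_pos k
  have h2 : (n k : ℝ) ≤ n (k + 1) := by exact_mod_cast (h.n_strictMono (Nat.lt_succ_self k)).le
  have := one_div_le_one_div_of_le h1 h2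
  linarith

theorem Good.half_le_rho (h : Good a n) (k : ℕ) : 1 / 2 ≤ rho n k := by
  unfold rho
  have h1 : (2 : ℝ) ≤ n k := by exact_mod_cast h.two_le_n k
  have := one_div_le_one_div_of_le (by norm_num) h1
  linarith

theorem Good.rho_lt_one (h : Good a n) (k : ℕ) : rho n k < 1 := by
  unfold rho
  have h1 : (0 : ℝ) < n k := by exact_mod_cast h.n_pos k
  have : 0 < 1 / (n k : ℝ) := by positivity
  linarith

theorem Good.rho_pow (h : Good a n) (k : ℕ) : (1 : ℝ) / 256 ≤ rho n k ^ (2 * n k) := by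
  have h0 := h.half_le_rho k
  have hn := h.two_le_n k
  -- `m = ⌊n/2⌋`, `n ≤ 2 m + 1 ≤ 3 m + ...`
  set m := n k / 2 with hm
  have hm1 : 2 * m ≤ n k := Nat.mul_div_le _ _
  have hm2 : n k ≤ 2 * m + 1 := by omega
  have hm3 : 1 ≤ m := by omega
  have h1 : (1 : ℝ) / 2 ≤ rho n k ^ m := by
    have h2 := one_add_mul_le_pow (a := -(1 / (n k : ℝ))) (by
      have : (1 : ℝ) ≤ n k := by exact_mod_cast h.n_pos k
      have : 1 / (n k : ℝ) ≤ 1 := by
        rw [div_le_one (by linarith)]; exact this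
      linarith) m
    have h3 : (1 : ℝ) / 2 ≤ 1 + m * -(1 / (n k : ℝ)) := by
      have h4 : (0 : ℝ) < n k := by exact_mod_cast h.n_pos k
      have h5 : (2 : ℝ) * m ≤ n k := by exact_mod_cast hm1
      have h6 : (m : ℝ) * (1 / (n k : ℝ)) ≤ 1 / 2 := by
        rw [mul_one_div, div_le_div_iff₀ h4 (by norm_num)]
        linarith
      linarith
    calc (1 : ℝ) / 2 ≤ _ := h3.trans h2
      _ = rho n k ^ m := by unfold rho; ring_nf
  have h7 : rho n k ≤ 1 := (h.rho_lt_one k).le
  have h8 : (0 : ℝ) ≤ rho n k := by linarith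
  calc (1 : ℝ) / 256 ≤ (1 / 2) ^ 4 * (1 / 2) ^ 2 := by norm_num
    _ ≤ (rho n k ^ m) ^ 4 * rho n k ^ 2 := by gcongr
    _ = rho n k ^ (4 * m + 2) := by rw [← pow_mul, ← pow_add]; ring_nf
    _ ≤ rho n k ^ (2 * n k) := pow_le_pow_of_le_one h8 h7 (by omega)

/-- the weight on the interval `[ρ_k, ρ_k + 1/(2 n_k))` -/
theorem weight_low {α N r : ℝ} (hN : 0 < N) (h1 : 1 - 1 / N ≤ r) (h2 : r < 1 - 1 / (2 * N)) :
    (1 / 2) ^ |α| * N ^ (-α) ≤ (1 - r) ^ α := by
  have h3 : 1 / (2 * N) ≤ 1 - r := by linarith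
  have h4 : 1 - r ≤ 1 / N := by linarith
  have h5 : 0 < 1 - r := lt_of_lt_of_le (by positivity) h3
  rcases le_total 0 α with ha | ha
  · rw [abs_of_nonneg ha]
    have h6 := Real.rpow_le_rpow (by positivity) h3 ha
    refine le_trans (le_of_eq ?_) h6
    have e : 1 / (2 * N) = (1 / 2) * N⁻¹ := by field_simp
    rw [e, Real.mul_rpow (by norm_num) (by positivity), Real.inv_rpow hN.le, Real.rpow_neg hN.le]
  · have h6 : (1 / N) ^ α ≤ (1 - r) ^ α := Real.rpow_le_rpow_of_nonpos h5 h4 ha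
    refine le_trans ?_ h6
    have e : (1 / N) ^ α = N ^ (-α) := by
      rw [Real.rpow_neg hN.le, one_div, Real.inv_rpow hN.le]
    rw [e]
    have h7 : ((1 : ℝ) / 2) ^ |α| ≤ 1 := Real.rpow_le_one (by norm_num) (by norm_num) (abs_nonneg _)
    have h8 : 0 ≤ N ^ (-α) := Real.rpow_nonneg hN.le _
    nlinarith

/-- the main lower bound -/
theorem not_mem (h : Good a n) {p α : ℝ} (hp : 0 < p)
    (hdiv : ¬ Summable fun k => A a k ^ p * (n k : ℝ) ^ (-(α + 1)))
    (g : ℂ → ℂ) (hg : DifferentiableOn ℂ g (ball (0 : ℂ) 1))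
    (hord : ∀ z ∈ ball (0 : ℂ) 1, analyticOrderAt g z = analyticOrderAt (T a n 0) z) :
    ∫⁻ z in ball (0 : ℂ) 1, ENNReal.ofReal (‖g z‖ ^ p * (1 - ‖z‖) ^ α) = ⊤ := by
  classical
  have hga : AnalyticOnNhd ℂ g (ball 0 1) := hg.analyticOnNhd isOpen_ball
  have hTa : AnalyticOnNhd ℂ (T a n 0) (ball 0 1) :=
    (h.differentiableOn_T 0).analyticOnNhd isOpen_ball
  have h0mem : (0 : ℂ) ∈ ball (0 : ℂ) 1 := by simp
  have hT0 : T a n 0 0 ≠ 0 := by rw [h.T_zero]; exact one_ne_zero
  have hg0 : g 0 ≠ 0 := by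
    have h1 : analyticOrderAt (T a n 0) 0 = 0 := (hTa 0 h0mem).analyticOrderAt_eq_zero.2 hT0
    have h2 := hord 0 h0mem
    rw [h1] at h2
    exact (hga 0 h0mem).analyticOrderAt_eq_zero.1 h2
  set c : ℝ := ‖g 0‖ with hc
  have hcpos : 0 < c := norm_pos_iff.2 hg0
  -- measurable version
  set w : ℂ → ℝ≥0∞ := (ball (0 : ℂ) 1).indicator
    fun z => ENNReal.ofReal (‖g z‖ ^ p * (1 - ‖z‖) ^ α) with hw
  have hmeas : Measurable w := by
    have h1 : Measurable ((ball (0 : ℂ) 1).piecewise g (fun _ => 0)) :=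
      ContinuousOn.measurable_piecewise hg.continuousOn continuousOn_const
        isOpen_ball.measurableSet
    have h2 : w = (ball (0 : ℂ) 1).indicator fun z =>
        ENNReal.ofReal (‖(ball (0 : ℂ) 1).piecewise g (fun _ => 0) z‖ ^ p * (1 - ‖z‖) ^ α) := by
      ext z
      by_cases hz : z ∈ ball (0 : ℂ) 1
      · simp only [hw]; rw [indicator_of_mem hz, indicator_of_mem hz, piecewise_eq_of_mem _ _ _ hz]
      · simp only [hw]; rw [indicator_of_notMem hz, indicator_of_notMem hz]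
    rw [h2]
    refine Measurable.indicator ?_ isOpen_ball.measurableSet
    refine ENNReal.measurable_ofReal.comp ?_
    refine Measurable.mul (h1.norm.pow_const p) ?_
    exact (measurable_const.sub measurable_norm).pow_const α
  have e0 : ∫⁻ z in ball (0 : ℂ) 1, ENNReal.ofReal (‖g z‖ ^ p * (1 - ‖z‖) ^ α) =
      ∫⁻ z in ball (0 : ℂ) 1, w z := by
    refine setLIntegral_congr_fun isOpen_ball.measurableSet fun z hz => ?_
    simp only [hw]; rw [indicator_of_mem hz]
  rw [e0, lintegral_ball_polar w hmeas]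
  -- intervals
  have hI : ∀ k, Ico (rho n k) (1 - 1 / (2 * (n k : ℝ))) ⊆ Ico (rho n k) (rho n (k + 1)) := by
    intro k
    apply Ico_subset_Ico_right
    unfold rho
    have h1 : (0 : ℝ) < n k := by exact_mod_cast h.n_pos k
    have h2 : 2 * (n k : ℝ) ≤ n (k + 1) := by exact_mod_cast h.n_step k
    have h3 := one_div_le_one_div_of_le (by positivity) h2
    linarith
  -- lower bound for each radius
  set κ : ℝ := 1 / 2 * (2 * π) * (c / 256) ^ p * (1 / 2) ^ |α| with hκ
  have hκpos : 0 < κ := by positivity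
  have hlow : ∀ k : ℕ, ∀ r ∈ Ico (rho n k) (1 - 1 / (2 * (n k : ℝ))),
      ENNReal.ofReal (κ * (A a k ^ p * (n k : ℝ) ^ (-α))) ≤
        ENNReal.ofReal r * ∫⁻ θ in Ioo (-π) π, w (circleMap 0 r θ) := by
    intro k r hr
    have hnk : (0 : ℝ) < n k := by exact_mod_cast h.n_pos k
    have hhalf : 1 / 2 ≤ r := (h.half_le_rho k).trans hr.1
    have hr0 : 0 < r := by linarith
    have hr1 : r < 1 := by
      have : 0 < 1 / (2 * (n k : ℝ)) := by positivity
      linarith [hr.2]
    have habs : |r| = r := abs_of_pos hr0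
    have e1 : ∫⁻ θ in Ioo (-π) π, w (circleMap 0 r θ) =
        ∫⁻ θ in Ioo (-π) π, ENNReal.ofReal
          ((fun z => ‖g z‖ ^ p * (1 - r) ^ α) (circleMap 0 r θ)) := by
      refine lintegral_congr fun θ => ?_
      have hn : ‖circleMap 0 r θ‖ = r := by rw [norm_circleMap_zero, habs]
      have : circleMap 0 r θ ∈ ball (0 : ℂ) 1 := by
        rw [mem_ball_zero_iff, hn]; exact hr1
      simp only [hw]; rw [indicator_of_mem this, hn]
    have hsub : closedBall (0 : ℂ) |r| ⊆ ball 0 1 := closedBall_subset_ball (by rwa [habs])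
    have hsub2 : sphere (0 : ℂ) r ⊆ ball 0 1 := by
      rw [← habs]; exact sphere_subset_closedBall.trans hsub
    have hcont : ContinuousOn (fun z => ‖g z‖ ^ p) (sphere (0 : ℂ) r) :=
      ((hg.continuousOn.mono hsub2).norm).rpow_const fun _ _ => Or.inr hp.le
    have h1r : 0 ≤ (1 - r) ^ α := Real.rpow_nonneg (by linarith) _
    have hl := lintegral_circle_eq (fun z => ‖g z‖ ^ p * (1 - r) ^ α) r hr0
      (hcont.mul continuousOn_const)
      (fun z _ => mul_nonneg (Real.rpow_nonneg (norm_nonneg _) _) h1r)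
    rw [e1, hl, ← ENNReal.ofReal_mul hr0.le]
    apply ENNReal.ofReal_le_ofReal
    have e2 : circleAverage (fun z => ‖g z‖ ^ p * (1 - r) ^ α) 0 r =
        (1 - r) ^ α * circleAverage (fun z => ‖g z‖ ^ p) 0 r := by
      have : (fun z : ℂ => ‖g z‖ ^ p * (1 - r) ^ α) = (1 - r) ^ α • fun z => ‖g z‖ ^ p := by
        ext z; simp [mul_comm]
      rw [this, circleAverage_smul, smul_eq_mul]
    rw [e2]
    have h1 := circle_low h hp g hg hord hg0 k hr0 hr1
    have hAk : (0 : ℝ) < A a k := h.A_pos k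
    have h8 : (1 : ℝ) / 256 ≤ r ^ (2 * n k) :=
      (h.rho_pow k).trans (pow_le_pow_left₀ (by linarith [h.half_le_rho k]) hr.1 _)
    have h9 : (c / 256) ^ p * A a k ^ p ≤ circleAverage (fun z => ‖g z‖ ^ p) 0 r := by
      refine le_trans ?_ h1
      rw [← Real.mul_rpow (by positivity) hAk.le]
      apply Real.rpow_le_rpow (by positivity) _ hp.le
      calc c / 256 * A a k = c * (A a k * (1 / 256)) := by ring
        _ ≤ _ := by gcongr
    have h10 := weight_low (α := α) hnk hr.1 hr.2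
    calc κ * (A a k ^ p * (n k : ℝ) ^ (-α))
        = 1 / 2 * (2 * π * (((1 / 2) ^ |α| * (n k : ℝ) ^ (-α)) * ((c / 256) ^ p * A a k ^ p))) := by
          rw [hκ]; ring
      _ ≤ r * (2 * π * ((1 - r) ^ α * circleAverage (fun z => ‖g z‖ ^ p) 0 r)) := by
          gcongr
  -- disjoint union
  have hdisj : Pairwise (Function.onFun Disjoint fun k => Ico (rho n k) (rho n (k + 1))) :=
    h.rho_mono.pairwise_disjoint_on_Ico_succ
  have hsub : (⋃ k, Ico (rho n k) (rho n (k + 1))) ⊆ Ioo (0 : ℝ) 1 := by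
    refine iUnion_subset fun k r hr => ?_
    exact ⟨lt_of_lt_of_le (by linarith [h.half_le_rho k]) hr.1, hr.2.trans (h.rho_lt_one _)⟩
  rw [eq_top_iff]
  calc (⊤ : ℝ≥0∞) = ∑' k : ℕ, ENNReal.ofReal (κ / 2 * (A a k ^ p * (n k : ℝ) ^ (-(α + 1)))) := by
        symm
        by_contra hne
        have h1 := ENNReal.summable_toReal hne
        have h2 : Summable fun k : ℕ => κ / 2 * (A a k ^ p * (n k : ℝ) ^ (-(α + 1))) := by
          refine h1.congr fun k => ?_
          rw [ENNReal.toReal_ofReal]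
          have := h.A_pos k
          positivity
        exact hdiv ((summable_mul_left_iff (by positivity)).1 h2)
    _ ≤ ∑' k : ℕ, ∫⁻ r in Ico (rho n k) (rho n (k + 1)),
          ENNReal.ofReal r * ∫⁻ θ in Ioo (-π) π, w (circleMap 0 r θ) := by
        refine ENNReal.tsum_le_tsum fun k => ?_
        have hnk : (0 : ℝ) < n k := by exact_mod_cast h.n_pos k
        have hAk : (0 : ℝ) < A a k := h.A_pos k
        calc ENNReal.ofReal (κ / 2 * (A a k ^ p * (n k : ℝ) ^ (-(α + 1))))
            = ENNReal.ofReal (κ * (A a k ^ p * (n k : ℝ) ^ (-α))) *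
              volume (Ico (rho n k) (1 - 1 / (2 * (n k : ℝ)))) := by
              rw [Real.volume_Ico, ← ENNReal.ofReal_mul (by positivity)]
              congr 1
              have e : 1 - 1 / (2 * (n k : ℝ)) - rho n k = 1 / 2 * (n k : ℝ)⁻¹ := by
                unfold rho; field_simp; ring
              have e' : (n k : ℝ) ^ (-(α + 1)) = (n k : ℝ) ^ (-α) * (n k : ℝ)⁻¹ := by
                rw [neg_add, Real.rpow_add hnk, Real.rpow_neg_one]
              rw [e, e']; ring
          _ = ∫⁻ r in Ico (rho n k) (1 - 1 / (2 * (n k : ℝ))),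
                ENNReal.ofReal (κ * (A a k ^ p * (n k : ℝ) ^ (-α))) := by
              rw [setLIntegral_const]
          _ ≤ ∫⁻ r in Ico (rho n k) (1 - 1 / (2 * (n k : ℝ))),
                ENNReal.ofReal r * ∫⁻ θ in Ioo (-π) π, w (circleMap 0 r θ) :=
              setLIntegral_mono' measurableSet_Ico (hlow k)
          _ ≤ _ := lintegral_mono_set (hI k)
    _ = ∫⁻ r in ⋃ k, Ico (rho n k) (rho n (k + 1)),
          ENNReal.ofReal r * ∫⁻ θ in Ioo (-π) π, w (circleMap 0 r θ) := by
        rw [lintegral_iUnion (fun k => measurableSet_Ico) hdisj]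
    _ ≤ _ := lintegral_mono_set hsub

end Pool.Agent.Helper50.BG
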