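import Mathlib
import Pool.Agent.Helper50.BG.Low

/-! Upper bound: the product is in the space with the larger exponent; choice of parameters. -/

set_option autoImplicit false

namespace Pool.Agent.Helper50.BG

open Complex MeasureTheory Metric Set Filter Topology Real
open scoped ENNReal
open Pool.Agent.Helper50.Bergman (lintegral_ball_polar)

variable {a : ℕ → ℝ} {n : ℕ → ℕ}

theorem lintegral_Ioo_le {β x C : ℝ} (hβ : -1 < β) (hx : 0 < x) (hC : 0 ≤ C) :
    ∫⁻ r in Ioo (0 : ℝ) 1, ENNReal.ofReal (C * (Real.exp (-(x * (1 - r))) * (1 - r) ^ β)) ≤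
      ENNReal.ofReal (C * ((1 / x) ^ (β + 1) * Real.Gamma (β + 1))) := by
  set F : ℝ → ℝ≥0∞ := fun t => (Ioi (0 : ℝ)).indicator
    (fun t => ENNReal.ofReal (C * (t ^ β * Real.exp (-(x * t))))) t with hF
  have h1 : ∫⁻ r in Ioo (0 : ℝ) 1, ENNReal.ofReal (C * (Real.exp (-(x * (1 - r))) * (1 - r) ^ β)) ≤
      ∫⁻ r : ℝ, F (1 - r) := by
    rw [← lintegral_indicator measurableSet_Ioo]
    refine lintegral_mono fun r => ?_
    by_cases hr : r ∈ Ioo (0 : ℝ) 1
    · rw [indicator_of_mem hr]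
      have : 1 - r ∈ Ioi (0 : ℝ) := by
        simp only [Set.mem_Ioi]; linarith [hr.2]
      simp only [hF]
      rw [indicator_of_mem this, mul_comm (Real.exp _)]
    · rw [indicator_of_notMem hr]; exact zero_le
  have h2 : ∫⁻ r : ℝ, F (1 - r) = ∫⁻ t in Ioi (0 : ℝ),
      ENNReal.ofReal (C * (t ^ β * Real.exp (-(x * t)))) := by
    rw [lintegral_sub_left_eq_self F (1 : ℝ), ← lintegral_indicator measurableSet_Ioi]
  rw [h2] at h1
  refine h1.trans ?_
  have hint : IntegrableOn (fun t : ℝ => C * (t ^ β * Real.exp (-(x * t)))) (Ioi 0) := by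
    have h3 := integrableOn_rpow_mul_exp_neg_mul_rpow hβ one_pos hx
    have h4 := h3.const_mul C
    refine h4.congr (Eventually.of_forall fun t => ?_)
    simp only [Real.rpow_one]
    congr 3
    ring
  rw [← ofReal_integral_eq_lintegral_ofReal hint]
  · apply ENNReal.ofReal_le_ofReal
    rw [integral_const_mul]
    have h5 := Real.integral_rpow_mul_exp_neg_mul_Ioi (a := β + 1) (by linarith) hx
    rw [add_sub_cancel_right] at h5
    rw [h5]
  · refine (ae_restrict_mem measurableSet_Ioi).mono fun t ht => ?_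
    have ht' : (0 : ℝ) < t := ht
    simp only [Pi.zero_apply]
    positivity

theorem lintegral_radial {β x C : ℝ} (hβ : -1 < β) (hx : 0 < x) (hC : 0 ≤ C) :
    ∫⁻ z in ball (0 : ℂ) 1, ENNReal.ofReal (C * ‖z‖ ^ x * (1 - ‖z‖) ^ β) ≤
      ENNReal.ofReal (2 * π * C * ((1 / x) ^ (β + 1) * Real.Gamma (β + 1))) := by
  have hm : Measurable fun z : ℂ => ENNReal.ofReal (C * ‖z‖ ^ x * (1 - ‖z‖) ^ β) := by
    refine ENNReal.measurable_ofReal.comp ?_
    refine Measurable.mul (measurable_const.mul (measurable_norm.pow_const x)) ?_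
    exact (measurable_const.sub measurable_norm).pow_const β
  rw [lintegral_ball_polar _ hm]
  refine le_trans ?_ (lintegral_Ioo_le hβ hx (C := 2 * π * C) (by positivity))
  refine setLIntegral_mono' measurableSet_Ioo fun r hr => ?_
  have e2 : ∀ θ : ℝ, ENNReal.ofReal (C * ‖circleMap 0 r θ‖ ^ x * (1 - ‖circleMap 0 r θ‖) ^ β) =
      ENNReal.ofReal (C * r ^ x * (1 - r) ^ β) := by
    intro θ
    rw [norm_circleMap_zero, abs_of_pos hr.1]
  simp_rw [e2]
  rw [setLIntegral_const, Real.volume_Ioo]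
  have h1 : 0 ≤ (1 - r) ^ β := Real.rpow_nonneg (by linarith [hr.2]) _
  have h0 : 0 ≤ r ^ x := Real.rpow_nonneg hr.1.le _
  have h2 : r ^ x ≤ Real.exp (-(x * (1 - r))) := by
    have h3 : r ≤ Real.exp (-(1 - r)) := by
      have := Real.one_sub_le_exp_neg (1 - r)
      linarith
    calc r ^ x ≤ (Real.exp (-(1 - r))) ^ x := Real.rpow_le_rpow hr.1.le h3 hx.le
      _ = Real.exp (-(x * (1 - r))) := by
        rw [← Real.exp_mul]; congr 1; ring
  rw [← ENNReal.ofReal_mul (by positivity), ← ENNReal.ofReal_mul hr.1.le]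
  apply ENNReal.ofReal_le_ofReal
  have h4 : 0 ≤ C * r ^ x * (1 - r) ^ β * (π - -π) := by
    have : 0 < π := Real.pi_pos
    have : π - -π = 2 * π := by ring
    rw [this]
    positivity
  calc r * (C * r ^ x * (1 - r) ^ β * (π - -π)) ≤ 1 * (C * r ^ x * (1 - r) ^ β * (π - -π)) :=
        mul_le_mul_of_nonneg_right hr.2.le h4
    _ = 2 * π * C * (r ^ x * (1 - r) ^ β) := by ring
    _ ≤ _ := by gcongr

/-- `T` is in the space with exponent `q` and weight `β`. -/
theorem mem (h : Good a n) {q β : ℝ} (hq : 0 < q) (hβ : -1 < β)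
    (hconv : Summable fun k => A a k ^ q * (n k : ℝ) ^ (-(β + 1))) :
    ∫⁻ z in ball (0 : ℂ) 1, ENNReal.ofReal (‖T a n 0 z‖ ^ q * (1 - ‖z‖) ^ β) < ⊤ := by
  set c : ℝ := min 1 q with hc
  have hcpos : 0 < c := lt_min one_pos hq
  set D : ℝ := 2 ^ q * 3 ^ q * 2 ^ q with hD
  have hDpos : 0 < D := by positivity
  have h1 : ∀ z ∈ ball (0 : ℂ) 1, ENNReal.ofReal (‖T a n 0 z‖ ^ q * (1 - ‖z‖) ^ β) ≤
      ENNReal.ofReal (2 ^ q * (1 - ‖z‖) ^ β) +
      ∑' k, ENNReal.ofReal (D * A a k ^ q * ‖z‖ ^ ((n k : ℝ) * c) * (1 - ‖z‖) ^ β) := by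
    intro z hz
    rw [mem_ball_zero_iff] at hz
    have h2 := h.norm_T_rpow_le hq hz
    have h3 : 0 ≤ (1 - ‖z‖) ^ β := Real.rpow_nonneg (by linarith) _
    rw [ENNReal.ofReal_mul (by positivity)]
    refine (mul_le_mul_left h2 _).trans (le_of_eq ?_)
    rw [add_mul, ← ENNReal.ofReal_mul (by positivity), ← ENNReal.tsum_mul_right]
    congr 1
    refine tsum_congr fun k => ?_
    have hAk := (h.A_pos k).le
    rw [← ENNReal.ofReal_mul (by positivity), Real.rpow_natCast_mul (norm_nonneg z)]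
    congr 1
    ring
  have hT : ∀ k, ∫⁻ z in ball (0 : ℂ) 1,
      ENNReal.ofReal (D * A a k ^ q * ‖z‖ ^ ((n k : ℝ) * c) * (1 - ‖z‖) ^ β) ≤
      ENNReal.ofReal (2 * π * D * Real.Gamma (β + 1) * (1 / c) ^ (β + 1) *
        (A a k ^ q * (n k : ℝ) ^ (-(β + 1)))) := by
    intro k
    have hAk := h.A_pos k
    have hnk : (0 : ℝ) < n k := by exact_mod_cast h.n_pos k
    refine (lintegral_radial hβ (x := (n k : ℝ) * c) (C := D * A a k ^ q) (by positivity)
      (by positivity)).trans (le_of_eq ?_)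
    congr 1
    have e : (1 / ((n k : ℝ) * c)) ^ (β + 1) = (n k : ℝ) ^ (-(β + 1)) * (1 / c) ^ (β + 1) := by
      have e' : 1 / ((n k : ℝ) * c) = (n k : ℝ)⁻¹ * (1 / c) := by field_simp
      rw [e', Real.mul_rpow (by positivity) (by positivity), Real.inv_rpow hnk.le,
        Real.rpow_neg hnk.le]
    rw [e]
    ring
  have h0 : ∫⁻ z in ball (0 : ℂ) 1, ENNReal.ofReal (2 ^ q * (1 - ‖z‖) ^ β) < ⊤ := by
    have h5 : ∀ z ∈ ball (0 : ℂ) 1, ENNReal.ofReal (2 ^ q * (1 - ‖z‖) ^ β) ≤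
        ENNReal.ofReal (2 ^ q * (1 - ‖z‖) ^ β) := fun _ _ => le_rfl
    have hm : Measurable fun z : ℂ => ENNReal.ofReal (2 ^ q * (1 - ‖z‖) ^ β) := by
      refine ENNReal.measurable_ofReal.comp (measurable_const.mul ?_)
      exact (measurable_const.sub measurable_norm).pow_const β
    rw [lintegral_ball_polar _ hm]
    refine lt_of_le_of_lt (b := ∫⁻ r in Ioo (0 : ℝ) 1, ENNReal.ofReal
      (2 * π * 2 ^ q * Real.exp 1 * (Real.exp (-(1 * (1 - r))) * (1 - r) ^ β))) ?_
      (lt_of_le_of_lt (lintegral_Ioo_le hβ one_pos (by positivity)) ENNReal.ofReal_lt_top)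
    refine setLIntegral_mono' measurableSet_Ioo fun r hr => ?_
    have e2 : ∀ θ : ℝ, ENNReal.ofReal (2 ^ q * (1 - ‖circleMap 0 r θ‖) ^ β) =
        ENNReal.ofReal (2 ^ q * (1 - r) ^ β) := by
      intro θ
      rw [norm_circleMap_zero, abs_of_pos hr.1]
    simp_rw [e2]
    rw [setLIntegral_const, Real.volume_Ioo]
    have h1 : 0 ≤ (1 - r) ^ β := Real.rpow_nonneg (by linarith [hr.2]) _
    rw [← ENNReal.ofReal_mul (by positivity), ← ENNReal.ofReal_mul hr.1.le]
    apply ENNReal.ofReal_le_ofReal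
    have h6 : 1 ≤ Real.exp 1 * Real.exp (-(1 * (1 - r))) := by
      rw [← Real.exp_add]
      apply Real.one_le_exp
      linarith [hr.1]
    have h7 : 0 ≤ 2 ^ q * (1 - r) ^ β * (π - -π) := by
      have : 0 < π := Real.pi_pos
      have : π - -π = 2 * π := by ring
      rw [this]
      positivity
    calc r * (2 ^ q * (1 - r) ^ β * (π - -π)) ≤ 1 * (2 ^ q * (1 - r) ^ β * (π - -π)) :=
          mul_le_mul_of_nonneg_right hr.2.le h7
      _ = (2 * π * 2 ^ q * (1 - r) ^ β) * 1 := by ring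
      _ ≤ (2 * π * 2 ^ q * (1 - r) ^ β) * (Real.exp 1 * Real.exp (-(1 * (1 - r)))) :=
          mul_le_mul_of_nonneg_left h6 (by positivity)
      _ = _ := by ring
  calc ∫⁻ z in ball (0 : ℂ) 1, ENNReal.ofReal (‖T a n 0 z‖ ^ q * (1 - ‖z‖) ^ β)
      ≤ ∫⁻ z in ball (0 : ℂ) 1, (ENNReal.ofReal (2 ^ q * (1 - ‖z‖) ^ β) +
        ∑' k, ENNReal.ofReal (D * A a k ^ q * ‖z‖ ^ ((n k : ℝ) * c) * (1 - ‖z‖) ^ β)) :=
        setLIntegral_mono' isOpen_ball.measurableSet h1
    _ = (∫⁻ z in ball (0 : ℂ) 1, ENNReal.ofReal (2 ^ q * (1 - ‖z‖) ^ β)) +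
        ∑' k, ∫⁻ z in ball (0 : ℂ) 1,
          ENNReal.ofReal (D * A a k ^ q * ‖z‖ ^ ((n k : ℝ) * c) * (1 - ‖z‖) ^ β) := by
        rw [lintegral_add_left, lintegral_tsum]
        · intro k
          refine (ENNReal.measurable_ofReal.comp ?_).aemeasurable
          refine Measurable.mul (measurable_const.mul (measurable_norm.pow_const _)) ?_
          exact (measurable_const.sub measurable_norm).pow_const β
        · refine ENNReal.measurable_ofReal.comp (measurable_const.mul ?_)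
          exact (measurable_const.sub measurable_norm).pow_const β
    _ ≤ (∫⁻ z in ball (0 : ℂ) 1, ENNReal.ofReal (2 ^ q * (1 - ‖z‖) ^ β)) +
        ∑' k, ENNReal.ofReal (2 * π * D * Real.Gamma (β + 1) * (1 / c) ^ (β + 1) *
        (A a k ^ q * (n k : ℝ) ^ (-(β + 1)))) := by
        gcongr with k
        exact hT k
    _ < ⊤ := by
        refine ENNReal.add_lt_top.2 ⟨h0, ?_⟩
        have hG : 0 < Real.Gamma (β + 1) := Real.Gamma_pos_of_pos (by linarith)
        rw [← ENNReal.ofReal_tsum_of_nonneg]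
        · exact ENNReal.ofReal_lt_top
        · intro k
          have := h.A_pos k
          positivity
        · exact hconv.mul_left _

/-! ### The choice of parameters -/

/-- coefficients -/
noncomputable def co (s : ℝ) (k : ℕ) : ℝ := (4 ^ (s + 1) : ℝ) ^ (k + 1)

/-- real exponents -/
noncomputable def X (p s : ℝ) (k : ℕ) : ℝ := (A (co s) k * ((k : ℝ) + 1) ^ (1 / p)) ^ (1 / s)

/-- exponents -/
noncomputable def ex (p s : ℝ) (k : ℕ) : ℕ := ⌈X p s k⌉₊

theorem base_ge {s : ℝ} (hs : 0 < s) : (4 : ℝ) ≤ 4 ^ (s + 1) := by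
  have := Real.rpow_le_rpow_of_exponent_le (x := 4) (by norm_num) (show (1 : ℝ) ≤ s + 1 by linarith)
  rwa [Real.rpow_one] at this

theorem co_ge {s : ℝ} (hs : 0 < s) (k : ℕ) : (4 : ℝ) ^ (k + 1) ≤ co s k := by
  unfold co
  have := base_ge hs
  gcongr

theorem co_pos {s : ℝ} (hs : 0 < s) (k : ℕ) : 0 < co s k :=
  lt_of_lt_of_le (by positivity) (co_ge hs k)

theorem A_co_pos {s : ℝ} (hs : 0 < s) (k : ℕ) : 0 < A (co s) k :=
  Finset.prod_pos fun j _ => co_pos hs j

theorem co_ge_base {s : ℝ} (hs : 0 < s) (k : ℕ) : (4 : ℝ) ^ (s + 1) ≤ co s k := by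
  unfold co
  have h1 : (1 : ℝ) ≤ 4 ^ (s + 1) := by linarith [base_ge hs]
  calc (4 : ℝ) ^ (s + 1) = ((4 : ℝ) ^ (s + 1)) ^ 1 := (pow_one _).symm
    _ ≤ _ := pow_le_pow_right₀ h1 (by omega)

theorem X_pos {p s : ℝ} (hs : 0 < s) (k : ℕ) : 0 < X p s k := by
  unfold X
  have := A_co_pos hs k
  positivity

theorem base_root {s : ℝ} (hs : 0 < s) : (4 : ℝ) ≤ (4 ^ (s + 1)) ^ (1 / s) := by
  rw [← Real.rpow_mul (by norm_num)]
  have h1 : (1 : ℝ) ≤ (s + 1) * (1 / s) := by
    rw [mul_one_div, le_div_iff₀ hs]; linarith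
  have := Real.rpow_le_rpow_of_exponent_le (x := 4) (by norm_num) h1
  rwa [Real.rpow_one] at this

theorem X_zero {p s : ℝ} (hs : 0 < s) : 4 ≤ X p s 0 := by
  unfold X A
  simp only [zero_add, Finset.range_one, Finset.prod_singleton, Nat.cast_zero, Real.one_rpow,
    mul_one]
  refine (base_root hs).trans ?_
  apply Real.rpow_le_rpow (by positivity) (co_ge_base hs 0) (by positivity)

theorem X_step {p s : ℝ} (hp : 0 < p) (hs : 0 < s) (k : ℕ) : 4 * X p s k ≤ X p s (k + 1) := by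
  unfold X
  have h1 := A_co_pos hs k
  have h2 : 0 < co s (k + 1) := co_pos hs _
  have e : A (co s) (k + 1) * (((k + 1 : ℕ) : ℝ) + 1) ^ (1 / p) =
      co s (k + 1) * (A (co s) k * (((k + 1 : ℕ) : ℝ) + 1) ^ (1 / p)) := by
    rw [Good.A_succ]; ring
  rw [e, Real.mul_rpow h2.le (by positivity)]
  have h3 : (4 : ℝ) ≤ (co s (k + 1)) ^ (1 / s) :=
    (base_root hs).trans (Real.rpow_le_rpow (by positivity) (co_ge_base hs _) (by positivity))
  have h4 : (A (co s) k * ((k : ℝ) + 1) ^ (1 / p)) ^ (1 / s) ≤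
      (A (co s) k * (((k + 1 : ℕ) : ℝ) + 1) ^ (1 / p)) ^ (1 / s) := by
    apply Real.rpow_le_rpow (by positivity) _ (by positivity)
    apply mul_le_mul_of_nonneg_left _ h1.le
    apply Real.rpow_le_rpow (by positivity) _ (by positivity)
    push_cast
    linarith
  have h5 : 0 ≤ (A (co s) k * ((k : ℝ) + 1) ^ (1 / p)) ^ (1 / s) := by positivity
  nlinarith

theorem X_ge_four {p s : ℝ} (hp : 0 < p) (hs : 0 < s) (k : ℕ) : 4 ≤ X p s k := by
  induction k with
  | zero => exact X_zero hs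
  | succ k ih => linarith [X_step hp hs k]

theorem X_le_ex (p s : ℝ) (k : ℕ) : X p s k ≤ ex p s k := Nat.le_ceil _

theorem ex_le {p s : ℝ} (hp : 0 < p) (hs : 0 < s) (k : ℕ) : (ex p s k : ℝ) ≤ 2 * X p s k :=
  (Nat.ceil_lt_two_mul (by linarith [X_ge_four hp hs k])).le

theorem A_rpow {p s : ℝ} (hs : 0 < s) (k : ℕ) :
    X p s k ^ s = A (co s) k * ((k : ℝ) + 1) ^ (1 / p) := by
  unfold X
  have h1 := A_co_pos hs k
  rw [← Real.rpow_mul (by positivity), one_div_mul_cancel hs.ne', Real.rpow_one]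

theorem good {p s : ℝ} (hp : 0 < p) (hs : 0 < s) : Good (co s) (ex p s) where
  a_ge k := by
    refine le_trans ?_ (co_ge hs k)
    gcongr
    norm_num
  n_zero := by
    have h1 := (X_zero (p := p) hs).trans (X_le_ex p s 0)
    have h2 : 4 ≤ ex p s 0 := by exact_mod_cast h1
    omega
  n_step k := by
    have h1 := ex_le hp hs k
    have h2 := X_step hp hs k
    have h3 := X_le_ex p s (k + 1)
    have h4 : 2 * (ex p s k : ℝ) ≤ ex p s (k + 1) := by linarith
    exact_mod_cast h4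
  A_le := by
    refine ⟨⌈s⌉₊, fun k => ?_⟩
    have h1 := A_rpow (p := p) hs k
    have h2 := A_co_pos hs k
    have h3 : 1 ≤ ((k : ℝ) + 1) ^ (1 / p) :=
      Real.one_le_rpow (by linarith [(Nat.cast_nonneg k : (0 : ℝ) ≤ k)]) (by positivity)
    have h4 := X_ge_four hp hs k
    have h5 := X_le_ex p s k
    calc A (co s) k ≤ A (co s) k * ((k : ℝ) + 1) ^ (1 / p) := by nlinarith
      _ = X p s k ^ s := h1.symm
      _ ≤ (ex p s k : ℝ) ^ s := Real.rpow_le_rpow (by linarith) h5 hs.le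
      _ ≤ (ex p s k : ℝ) ^ ((⌈s⌉₊ : ℕ) : ℝ) :=
        Real.rpow_le_rpow_of_exponent_le (by linarith) (Nat.le_ceil s)
      _ = _ := Real.rpow_natCast _ _

theorem not_summable {p s α : ℝ} (hp : 0 < p) (hs : 0 < s) (hα : α + 1 = s * p) :
    ¬ Summable fun k => A (co s) k ^ p * (ex p s k : ℝ) ^ (-(α + 1)) := by
  intro hsum
  have h1 : Summable fun k : ℕ => (1 / ((k : ℝ) + 1)) := by
    refine Summable.of_nonneg_of_le (fun k => by positivity) (fun k => ?_)
      (hsum.mul_left ((2 : ℝ) ^ (α + 1)))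
    have hX : 0 < X p s k := X_pos hs k
    have hA := A_co_pos hs k
    have h2 : (2 * X p s k) ^ (-(α + 1)) ≤ (ex p s k : ℝ) ^ (-(α + 1)) := by
      apply Real.rpow_le_rpow_of_nonpos _ (ex_le hp hs k)
      · rw [hα]; have := mul_pos hs hp; linarith
      · linarith [X_le_ex p s k]
    have h3 : (2 * X p s k) ^ (-(α + 1)) =
        2 ^ (-(α + 1)) * (A (co s) k ^ (-p) * (1 / ((k : ℝ) + 1))) := by
      rw [Real.mul_rpow (by norm_num) hX.le]
      congr 1
      have e : -(α + 1) = s * (-p) := by rw [hα]; ring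
      rw [e, Real.rpow_mul hX.le, A_rpow hs, Real.mul_rpow hA.le (by positivity),
        ← Real.rpow_mul (by positivity)]
      congr 1
      have e2 : 1 / p * -p = -1 := by field_simp
      rw [e2, Real.rpow_neg_one, one_div]
    rw [h3] at h2
    have h4 : (2 : ℝ) ^ (α + 1) * 2 ^ (-(α + 1)) = 1 := by
      rw [← Real.rpow_add (by norm_num)]; simp
    have h5 : A (co s) k ^ p * A (co s) k ^ (-p) = 1 := by
      rw [← Real.rpow_add hA]; simp
    calc 1 / ((k : ℝ) + 1) = ((2 : ℝ) ^ (α + 1) * 2 ^ (-(α + 1))) *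
          (A (co s) k ^ p * A (co s) k ^ (-p)) * (1 / ((k : ℝ) + 1)) := by rw [h4, h5]; ring
      _ = 2 ^ (α + 1) * (A (co s) k ^ p *
          (2 ^ (-(α + 1)) * (A (co s) k ^ (-p) * (1 / ((k : ℝ) + 1))))) := by ring
      _ ≤ _ := by gcongr
  have h4 : Summable fun k : ℕ => (1 / ((k : ℝ))) := by
    rw [← summable_nat_add_iff 1]
    exact h1.congr fun k => by push_cast; rfl
  exact Real.not_summable_one_div_natCast h4

theorem summable {p q s β : ℝ} (hp : 0 < p) (hpq : p < q) (hs : 0 < s) (hβ : β + 1 = s * q) :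
    Summable fun k => A (co s) k ^ q * (ex p s k : ℝ) ^ (-(β + 1)) := by
  have hq : 0 < q := hp.trans hpq
  have h1 : Summable fun k : ℕ => ((((k + 1 : ℕ) : ℝ)) ^ (q / p))⁻¹ :=
    (summable_nat_add_iff 1).2 (Real.summable_nat_rpow_inv.2 (by rwa [one_lt_div hp]))
  refine Summable.of_nonneg_of_le (fun k => ?_) (fun k => ?_) h1
  · have := A_co_pos hs k
    positivity
  · have hX : 0 < X p s k := X_pos hs k
    have hA := A_co_pos hs k
    have h2 : (ex p s k : ℝ) ^ (-(β + 1)) ≤ (X p s k) ^ (-(β + 1)) := by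
      apply Real.rpow_le_rpow_of_nonpos hX (X_le_ex p s k)
      rw [hβ]; have := mul_pos hs hq; linarith
    have h3 : (X p s k) ^ (-(β + 1)) = A (co s) k ^ (-q) * (((k + 1 : ℕ) : ℝ) ^ (q / p))⁻¹ := by
      have e : -(β + 1) = s * (-q) := by rw [hβ]; ring
      rw [e, Real.rpow_mul hX.le, A_rpow hs, Real.mul_rpow hA.le (by positivity),
        ← Real.rpow_mul (by positivity)]
      congr 1
      have e2 : 1 / p * -q = -(q / p) := by field_simp
      rw [e2, Real.rpow_neg (by positivity)]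
      push_cast
      rfl
    rw [h3] at h2
    have h5 : A (co s) k ^ q * A (co s) k ^ (-q) = 1 := by
      rw [← Real.rpow_add hA]; simp
    calc A (co s) k ^ q * (ex p s k : ℝ) ^ (-(β + 1)) ≤
        A (co s) k ^ q * (A (co s) k ^ (-q) * (((k + 1 : ℕ) : ℝ) ^ (q / p))⁻¹) := by
          gcongr
      _ = (A (co s) k ^ q * A (co s) k ^ (-q)) * (((k + 1 : ℕ) : ℝ) ^ (q / p))⁻¹ := by ring
      _ = _ := by rw [h5, one_mul]

/-- the product has infinitely many zeros in the disc -/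
theorem Good.infinite_zeros (h : Good a n) :
    {z | z ∈ ball (0 : ℂ) 1 ∧ T a n 0 z = 0}.Infinite := by
  intro hfin
  -- a zero of the `k`-th factor
  have h1 : ∀ k, ∃ z : ℂ, z ^ (n k) = -1 / (a k : ℂ) := fun k =>
    IsAlgClosed.exists_pow_nat_eq _ (h.n_pos k)
  choose w hw using h1
  have hak : ∀ k, (a k : ℂ) ≠ 0 := fun k => by
    have := h.a_pos k
    exact_mod_cast this.ne'
  have hnorm : ∀ k, a k * ‖w k‖ ^ (n k) = 1 := by
    intro k
    have ha := h.a_pos k
    rw [← norm_pow, hw k, norm_div, norm_neg, norm_one, Complex.norm_real,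
      Real.norm_of_nonneg ha.le, mul_one_div_cancel ha.ne']
  have hlt : ∀ k, ‖w k‖ < 1 := by
    intro k
    by_contra hcon
    have h2 : 1 ≤ ‖w k‖ ^ (n k) := one_le_pow₀ (not_lt.1 hcon)
    have h3 := h.two_le_a k
    have h4 := hnorm k
    nlinarith
  have hmem : ∀ k, w k ∈ {z | z ∈ ball (0 : ℂ) 1 ∧ T a n 0 z = 0} := by
    intro k
    refine ⟨by rw [mem_ball_zero_iff]; exact hlt k, ?_⟩
    rw [h.T_split (k + 1) (hlt k), Finset.prod_range_succ]
    have : 1 + term a n k (w k) = 0 := by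
      unfold term
      rw [hw k, mul_div_cancel₀ _ (hak k)]
      ring
    rw [this]
    simp
  obtain ⟨z0, hz0, hmax⟩ := Set.exists_max_image _ (fun z : ℂ => ‖z‖) hfin ⟨w 0, hmem 0⟩
  have hR : ‖z0‖ < 1 := by
    have := hz0.1
    rwa [mem_ball_zero_iff] at this
  have hsum := (h.summable_term (norm_nonneg z0) hR).tendsto_atTop_zero
  have hge : ∀ k, 1 ≤ a k * ‖z0‖ ^ (n k) := by
    intro k
    have ha := (h.a_pos k).le
    calc (1 : ℝ) = a k * ‖w k‖ ^ (n k) := (hnorm k).symm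
      _ ≤ _ := by
        have := hmax (w k) (hmem k)
        gcongr
  have := ge_of_tendsto' hsum hge
  linarith

/-- The theorem for `p < q`: one function in the space with exponent `q`, whose zeros are not the
zeros of any function in the space with exponent `p`. -/
theorem exists_zero_pattern {p q α β : ℝ} (hp : 0 < p) (hpq : p < q) (hα : -1 < α)
    (hβ : -1 < β) (hidx : (α + 1) / p = (β + 1) / q) :
    ∃ f : ℂ → ℂ, DifferentiableOn ℂ f (ball (0 : ℂ) 1) ∧ f 0 = 1 ∧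
      (∫⁻ z in ball (0 : ℂ) 1, ENNReal.ofReal (‖f z‖ ^ q * (1 - ‖z‖) ^ β)) < ⊤ ∧
      {z | z ∈ ball (0 : ℂ) 1 ∧ f z = 0}.Infinite ∧
      (∀ g : ℂ → ℂ, DifferentiableOn ℂ g (ball (0 : ℂ) 1) →
        (∀ z ∈ ball (0 : ℂ) 1, analyticOrderAt g z = analyticOrderAt f z) →
        (∫⁻ z in ball (0 : ℂ) 1, ENNReal.ofReal (‖g z‖ ^ p * (1 - ‖z‖) ^ α)) = ⊤) := by
  have hq : 0 < q := hp.trans hpq
  set s := (α + 1) / p with hs
  have hspos : 0 < s := div_pos (by linarith) hp
  have h1 : α + 1 = s * p := by rw [hs]; field_simp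
  have h2 : β + 1 = s * q := by rw [hidx]; field_simp
  have hgood := good hp hspos
  refine ⟨T (co s) (ex p s) 0, hgood.differentiableOn_T 0, hgood.T_zero 0,
    mem hgood hq hβ (summable hp hpq hspos h2), hgood.infinite_zeros, fun g hg hord => ?_⟩
  exact not_mem hgood hp (not_summable hp hspos h1) g hg hord

end Pool.Agent.Helper50.BG
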